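import Pool.Agent.H23.Cay6

open Pool.Agent.H23.Cay

theorem Pool.Agent.Results.MP_9441bf_co.Formula.result (n : ℕ) (hn : 1 ≤ n) :
    (Squarefree n → IsGreatest {k | k ≤ n ^ 2 ∧ Det n k} (n ^ 2)) ∧
    (∀ p : ℕ, p.Prime → p ≠ 2 → p ^ 2 ∣ n → (∀ q : ℕ, q.Prime → q ≠ 2 → q ^ 2 ∣ n → p ≤ q) →
      IsGreatest {k | k ≤ n ^ 2 ∧ Det n k} ((p ^ 2 - 1) / 4 * (n / p) ^ 2 - 1)) ∧
    (4 ∣ n → (∀ q : ℕ, q.Prime → q ^ 2 ∣ n → q = 2) →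
      IsGreatest {k | k ≤ n ^ 2 ∧ Det n k} ((n / 2) ^ 2 - 1)) := main n hn
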